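import Pool.Agent.K1H95.ParkTree.Rec

set_option autoImplicit false

/-! The bound for the expected number of visits. -/

namespace Pool.Agent.K1H95.ParkTree

open Finset MeasureTheory Measure
open Pool.Agent.TH996 Pool.Agent.TH996.Park

variable {V : Type*} [DecidableEq V] [MeasurableSpace V] [MeasurableSingletonClass V] [Countable V]

section

variable {S : Tri V} (D : Dir S) {p : ℝ} (hp : 0 ≤ p ∧ p ≤ 1)

include hp D in
lemma fT_eq (T : ℕ) (x : V) : fT S p 0 x T = (1 - p) * Psi p T 0 := by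
  have := law0_prob S hp
  have := bern_prob hp.1 hp.2
  unfold fT
  rw [law_emb S hp (bm_F S.nb T x)]
  have h1 : ∫ ω, (Fn S.nb T x (emb ω) : ℝ) ∂(S.law0 p) =
      ∫ ω, (((f0 ω.1 x - W D.inn T x ω : ℕ)) : ℝ) ∂(S.law0 p) := by
    refine integral_congr_ae ?_
    filter_upwards [ae_st D hp] with ω hω
    have h2 : Fn S.nb T x (emb ω) = fr D.inn ω.2 (fun _ => false) (c0 ω.1) (f0 ω.1) T x := by
      unfold Fn fr
      simp only [emb]
      rw [hω T]
    rw [h2, fr_vis]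
    rfl
  rw [h1]
  have hm : Measurable fun ω : Om0 V => (f0 ω.1 x - W D.inn T x ω : ℕ) := by
    have hf : Measurable fun ω : Om0 V => f0 ω.1 x :=
      (measurable_of_countable (fun b : Bool => if b then 0 else 1)).comp
        ((measurable_pi_apply x).comp measurable_fst)
    exact (measurable_of_countable (fun q : ℕ × ℕ => q.1 - q.2)).comp
      (hf.prodMk (meas_W D.inn T x))
  have hb : BM fun ω : Om0 V => (((f0 ω.1 x - W D.inn T x ω : ℕ)) : ℝ) := by
    refine ⟨(measurable_of_countable (fun n : ℕ => (n : ℝ))).comp hm, 1, fun ω => ?_⟩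
    rw [abs_of_nonneg (Nat.cast_nonneg _)]
    have : f0 ω.1 x ≤ 1 := by unfold f0; split_ifs <;> simp
    have h3 : f0 ω.1 x - W D.inn T x ω ≤ 1 := by omega
    exact_mod_cast h3
  rw [(resamp_mixE S hp x).integral hb]
  have hW : ∀ (ω : Om0 V) (β : Bool), W D.inn T x (mixE x ω β) = W D.inn T x ω := by
    intro ω β
    refine vis_loc D.inn _ _ _ _ (⋃ w ∈ D.inn x, D.anc w) (sanc_closed D x) ω.2 (c0 ω.1) (f0 ω.1)
      (fun z hz => ?_) (fun z hz s i => ?_) T x (inn_sanc D x)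
    · simp [mixE, c0, f0, Function.update_of_ne (not_sanc D x z hz)]
    · simp [mixE]
  have hin : ∀ ω : Om0 V, ∫ β, (((f0 (mixE x ω β).1 x - W D.inn T x (mixE x ω β) : ℕ)) : ℝ)
      ∂(bern p) = (1 - p) * (0 : ℝ) ^ (W D.inn T x ω) := by
    intro ω
    rw [integral_bern hp.1 hp.2, hW, hW]
    rcases Nat.eq_zero_or_pos (W D.inn T x ω) with h | h
    · rw [h]; simp [mixE, f0]
    · rw [zero_pow h.ne']
      have h4 : (1 - W D.inn T x ω) = 0 := by omega
      simp [mixE, f0, h4]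
  simp_rw [hin]
  rw [integral_const_mul, psi_eq D hp T x 0 le_rfl zero_le_one]

/-- deterministic bound for the number of visits -/
noncomputable def MB (nb : V → Finset V) (T : ℕ) (x : V) : ℕ := ∑ t ∈ range T, bd nb (t + 1) x

omit [MeasurableSpace V] [MeasurableSingletonClass V] [Countable V] in
lemma W_le (nb : V → Finset V) (T : ℕ) (x : V) (ω : Om0 V) : W nb T x ω ≤ MB nb T x := by
  unfold W vis MB
  exact sum_le_sum fun t _ => ar_le_bd nb _ _ _ _ (c0_le ω.1) t x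

omit [Countable V] in
lemma bm_W (nb : V → Finset V) (T : ℕ) (x : V) : BM (fun ω => (W nb T x ω : ℝ)) := by
  refine ⟨(measurable_of_countable (fun n : ℕ => (n : ℝ))).comp (meas_W nb T x), MB nb T x,
    fun ω => ?_⟩
  rw [abs_of_nonneg (Nat.cast_nonneg _)]
  exact_mod_cast W_le nb T x ω

include hp in
lemma mT_eq (T : ℕ) (x : V) : mT S p 0 x T = ∫ ω, (W D.inn T x ω : ℝ) ∂(S.law0 p) := by
  have := law0_prob S hp
  have h0 : (0 : ℝ) ≤ 0 ∧ (0 : ℝ) ≤ 1 := ⟨le_rfl, zero_le_one⟩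
  unfold mT
  have h1 : ∀ t, aT S p 0 x t = ∫ ω, (An S.nb t x (emb ω) : ℝ) ∂(S.law0 p) := by
    intro t
    rw [← law_emb S hp (bm_A S.nb t x), integral_A S hp h0]
    ring
  simp_rw [h1]
  rw [← integral_finsetSum _ fun t _ => ((bm_A S.nb t x).comp measurable_emb).integrable _]
  refine integral_congr_ae ?_
  filter_upwards [ae_st D hp] with ω hω
  unfold W vis
  push_cast
  refine sum_congr rfl fun t _ => ?_
  have h2 : An S.nb t x (emb ω) = arr S.nb ω.2 (fun _ => false)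
      (st S.nb ω.2 (fun _ => false) (c0 ω.1) (f0 ω.1) t).1 t x := rfl
  have h3 : An S.nb t x (emb ω) = ar D.inn ω.2 (fun _ => false) (c0 ω.1) (f0 ω.1) t x := by
    have h4 := hω (t + 1)
    have h5 : An S.nb t x (emb ω) = ar S.nb ω.2 (fun _ => false) (c0 ω.1) (f0 ω.1) t x := rfl
    -- arrivals are determined by the states at times t and t + 1
    have c1 := cs_succ S.nb ω.2 (fun _ => false) (c0 ω.1) (f0 ω.1) t x
    have c2 := cs_succ D.inn ω.2 (fun _ => false) (c0 ω.1) (f0 ω.1) t x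
    have f1 := fr_succ S.nb ω.2 (fun _ => false) (c0 ω.1) (f0 ω.1) t x
    have f2 := fr_succ D.inn ω.2 (fun _ => false) (c0 ω.1) (f0 ω.1) t x
    have e1 : cs S.nb ω.2 (fun _ => false) (c0 ω.1) (f0 ω.1) (t + 1) x =
        cs D.inn ω.2 (fun _ => false) (c0 ω.1) (f0 ω.1) (t + 1) x := by
      unfold cs; rw [h4]
    have e2 : fr S.nb ω.2 (fun _ => false) (c0 ω.1) (f0 ω.1) (t + 1) x =
        fr D.inn ω.2 (fun _ => false) (c0 ω.1) (f0 ω.1) (t + 1) x := by
      unfold fr; rw [h4]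
    have e3 : fr S.nb ω.2 (fun _ => false) (c0 ω.1) (f0 ω.1) t x =
        fr D.inn ω.2 (fun _ => false) (c0 ω.1) (f0 ω.1) t x := by
      unfold fr; rw [hω t]
    rw [h5]
    omega
  rw [h3]

include hp D in
lemma psi_bounds (T : ℕ) (x : V) {r : ℝ} (h0 : 0 ≤ r) (h1 : r ≤ 1) :
    Psi p T 0 ≤ Psi p T r ∧ Psi p T r ≤ 1 ∧ 0 ≤ Psi p T 0 := by
  have := law0_prob S hp
  rw [← psi_eq D hp T x r h0 h1, ← psi_eq D hp T x 0 le_rfl zero_le_one]
  have i1 := (bm_rpow h0 h1 _ (meas_W D.inn T x)).integrable (S.law0 p)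
  have i2 := (bm_rpow (le_refl (0 : ℝ)) zero_le_one _ (meas_W D.inn T x)).integrable (S.law0 p)
  refine ⟨?_, ?_, ?_⟩
  · refine integral_mono i2 i1 fun ω => ?_
    exact pow_le_pow_left₀ le_rfl h0 _
  · calc _ ≤ ∫ _ω, (1 : ℝ) ∂(S.law0 p) :=
        integral_mono i1 (integrable_const _) fun ω => pow_le_one₀ h0 h1
      _ = 1 := by simp
  · exact integral_nonneg fun ω => pow_nonneg le_rfl _

include hp D in
lemma psi_zero_ge (x : V) (T : ℕ) : 1 - 2 * p ≤ (1 - p) * Psi p T 0 := by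
  have h0 : (0 : ℝ) ≤ 0 ∧ (0 : ℝ) ≤ 1 := ⟨le_rfl, zero_le_one⟩
  have h := balance S hp h0 x T
  rw [fT_eq D hp] at h
  have h2 := aT_nonneg (p := p) (κ := 0) S x T
  linarith

include hp D in
/-- one step of the comparison -/
lemma psi_step (hp2 : p ≤ 1 / 2) (x : V) (T : ℕ) {s : ℝ} (h0 : 0 ≤ s) (h1 : s ≤ 1) :
    Psi p (T + 1) (1 - s) ≤ (Psi p T (1 - s / 2)) ^ 2 * Real.exp (p * s ^ 2) := by
  have hq : (1 + (1 - s)) / 2 = 1 - s / 2 := by ring
  rw [Psi, hq]
  obtain ⟨hb1, hb2, hb3⟩ := psi_bounds D hp T x (r := 1 - s / 2) (by linarith) (by linarith)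
  have hz := psi_zero_ge D hp x T
  set φ := Psi p T (1 - s / 2)
  set q := Psi p T 0
  have hφ0 : 0 ≤ φ := hb3.trans hb1
  have hq1 : (1 : ℝ) / 2 ≤ 1 - s / 2 := by linarith
  have hq0 : 0 < 1 - s / 2 := by linarith
  set u := 1 - s / 2 with hu
  have hs : s = 2 * (1 - u) := by rw [hu]; ring
  have hB0 : 0 ≤ p * u * φ + (1 - p) * ((φ - q) / u + q) := by
    have e1 : 0 ≤ p * u * φ := mul_nonneg (mul_nonneg hp.1 hq0.le) hφ0
    have e2 : 0 ≤ (1 - p) * ((φ - q) / u + q) :=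
      mul_nonneg (by linarith [hp.2]) (add_nonneg (div_nonneg (by linarith) hq0.le) hb3)
    linarith
  have hB1 : p * u * φ + (1 - p) * ((φ - q) / u + q) ≤ φ * (1 + p * (1 - u) ^ 2 / u) := by
    have e1 : p * u * φ + (1 - p) * ((φ - q) / u + q) =
        φ * (p * u + (1 - p) / u) - (1 - p) * q * ((1 - u) / u) := by
      field_simp
      ring
    have e2 : (1 - 2 * p) * φ * ((1 - u) / u) ≤ (1 - p) * q * ((1 - u) / u) := by
      apply mul_le_mul_of_nonneg_right _ (div_nonneg (by linarith) hq0.le)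
      have : (1 - 2 * p) * φ ≤ (1 - 2 * p) * 1 := mul_le_mul_of_nonneg_left hb2 (by linarith)
      linarith
    have e3 : φ * (p * u + (1 - p) / u) - (1 - 2 * p) * φ * ((1 - u) / u) =
        φ * (1 + p * (1 - u) ^ 2 / u) := by
      field_simp
      ring
    linarith
  have hexp : (1 + p * (1 - u) ^ 2 / u) ^ 2 ≤ Real.exp (p * s ^ 2) := by
    have e1 : 1 + p * (1 - u) ^ 2 / u ≤ Real.exp (p * (1 - u) ^ 2 / u) := by
      have := Real.add_one_le_exp (p * (1 - u) ^ 2 / u)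
      linarith
    have e0 : 0 ≤ p * (1 - u) ^ 2 / u := div_nonneg (mul_nonneg hp.1 (sq_nonneg _)) hq0.le
    calc (1 + p * (1 - u) ^ 2 / u) ^ 2 ≤ (Real.exp (p * (1 - u) ^ 2 / u)) ^ 2 :=
          pow_le_pow_left₀ (by linarith) e1 2
      _ = Real.exp (2 * (p * (1 - u) ^ 2 / u)) := by
          rw [← Real.exp_nat_mul]; norm_num
      _ ≤ Real.exp (p * s ^ 2) := by
          apply Real.exp_le_exp.2
          rw [hs, ← mul_div_assoc, div_le_iff₀ hq0]
          nlinarith [mul_nonneg hp.1 (sq_nonneg (1 - u))]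
  calc _ ≤ (φ * (1 + p * (1 - u) ^ 2 / u)) ^ 2 := pow_le_pow_left₀ hB0 hB1 2
    _ = φ ^ 2 * (1 + p * (1 - u) ^ 2 / u) ^ 2 := by ring
    _ ≤ φ ^ 2 * Real.exp (p * s ^ 2) := mul_le_mul_of_nonneg_left hexp (sq_nonneg _)

include hp D in
lemma psi_iter (hp2 : p ≤ 1 / 2) (x : V) (k : ℕ) : ∀ (T : ℕ) (s : ℝ), 0 ≤ s → s ≤ 1 →
    Psi p (T + k) (1 - s) ≤ (Psi p T (1 - s / 2 ^ k)) ^ (2 ^ k) * Real.exp (2 * p * s ^ 2) := by
  induction k with
  | zero =>
    intro T s _ _
    have hb := psi_bounds D hp T x (r := 1 - s) (by linarith) (by linarith)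
    have h1 : (1 : ℝ) ≤ Real.exp (2 * p * s ^ 2) := by
      apply Real.one_le_exp
      have := mul_nonneg hp.1 (sq_nonneg s)
      linarith
    simp only [add_zero, pow_zero, div_one, pow_one]
    have h2 : 0 ≤ Psi p T (1 - s) := hb.2.2.trans hb.1
    nlinarith
  | succ k ih =>
    intro T s h0 h1
    have e1 := psi_step D hp hp2 x (T + k) h0 h1
    have e2 := ih T (s / 2) (by linarith) (by linarith)
    have hb := psi_bounds D hp (T + k) x (r := 1 - s / 2) (by linarith) (by linarith)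
    have e3 : s / 2 / 2 ^ k = s / 2 ^ (k + 1) := by rw [pow_succ]; field_simp
    rw [e3] at e2
    calc Psi p (T + (k + 1)) (1 - s) ≤ (Psi p (T + k) (1 - s / 2)) ^ 2 * Real.exp (p * s ^ 2) := e1
      _ ≤ ((Psi p T (1 - s / 2 ^ (k + 1))) ^ (2 ^ k) * Real.exp (2 * p * (s / 2) ^ 2)) ^ 2 *
          Real.exp (p * s ^ 2) :=
          mul_le_mul_of_nonneg_right (pow_le_pow_left₀ (hb.2.2.trans hb.1) e2 2)
            (Real.exp_pos _).le
      _ = (Psi p T (1 - s / 2 ^ (k + 1))) ^ (2 ^ (k + 1)) *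
          ((Real.exp (2 * p * (s / 2) ^ 2)) ^ 2 * Real.exp (p * s ^ 2)) := by
          rw [mul_pow, ← pow_mul, ← pow_succ, mul_assoc]
      _ = _ := by
          rw [← Real.exp_nat_mul, ← Real.exp_add]
          congr 2
          push_cast
          ring

include hp in
lemma psi_small (T : ℕ) (x : V) {s : ℝ} (h0 : 0 ≤ s) (h1 : s ≤ 1) :
    Psi p T (1 - s) ≤ Real.exp (-(s * mT S p 0 x T) + s ^ 2 * (MB D.inn T x : ℝ) ^ 2) := by
  have := law0_prob S hp
  rw [← psi_eq D hp T x (1 - s) (by linarith) (by linarith), mT_eq D hp]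
  set M : ℝ := (MB D.inn T x : ℝ) with hM
  have hpt : ∀ ω : Om0 V, (1 - s) ^ (W D.inn T x ω) ≤
      1 - s * (W D.inn T x ω : ℝ) + s ^ 2 * M ^ 2 := by
    intro ω
    have hw : (W D.inn T x ω : ℝ) ≤ M := by rw [hM]; exact_mod_cast W_le D.inn T x ω
    have hw0 : (0 : ℝ) ≤ (W D.inn T x ω : ℝ) := Nat.cast_nonneg _
    set w := W D.inn T x ω
    have e1 : (1 - s) ^ w ≤ 1 - s * w + s ^ 2 * (w : ℝ) ^ 2 := by
      clear_value w
      induction w with
      | zero => simp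
      | succ n ih =>
        have hn : (n : ℝ) ≤ M := by push_cast at hw; linarith
        have hn0 : (0 : ℝ) ≤ n := Nat.cast_nonneg _
        have ih' := ih hn hn0
        rw [pow_succ]
        calc (1 - s) ^ n * (1 - s) ≤ (1 - s * n + s ^ 2 * (n : ℝ) ^ 2) * (1 - s) :=
              mul_le_mul_of_nonneg_right ih' (by linarith)
          _ ≤ 1 - s * ((n + 1 : ℕ) : ℝ) + s ^ 2 * ((n + 1 : ℕ) : ℝ) ^ 2 := by
              push_cast
              nlinarith [mul_nonneg (sq_nonneg s) hn0, mul_nonneg (mul_nonneg (sq_nonneg s) h0)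
                (sq_nonneg (n : ℝ)), sq_nonneg s]
    have e2 : s ^ 2 * (w : ℝ) ^ 2 ≤ s ^ 2 * M ^ 2 :=
      mul_le_mul_of_nonneg_left (pow_le_pow_left₀ hw0 hw 2) (sq_nonneg s)
    linarith
  have i1 := (bm_rpow (r := 1 - s) (by linarith) (by linarith) _
    (meas_W D.inn T x)).integrable (S.law0 p)
  have i2 := (bm_W D.inn T x).integrable (S.law0 p)
  calc ∫ ω, (1 - s) ^ (W D.inn T x ω) ∂(S.law0 p)
      ≤ ∫ ω, (1 - s * (W D.inn T x ω : ℝ) + s ^ 2 * M ^ 2) ∂(S.law0 p) :=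
        integral_mono i1 (((integrable_const _).sub (i2.const_mul s)).add (integrable_const _)) hpt
    _ = 1 - s * ∫ ω, (W D.inn T x ω : ℝ) ∂(S.law0 p) + s ^ 2 * M ^ 2 := by
        have e : ∀ ω : Om0 V, (1 - s * (W D.inn T x ω : ℝ) + s ^ 2 * M ^ 2) =
            (-s) * (W D.inn T x ω : ℝ) + (1 + s ^ 2 * M ^ 2) := fun ω => by ring
        simp_rw [e]
        rw [integral_add (i2.const_mul _) (integrable_const _), integral_const_mul]
        simp
        ring
    _ ≤ _ := by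
        have := Real.add_one_le_exp (-(s * ∫ ω, (W D.inn T x ω : ℝ) ∂(S.law0 p)) + s ^ 2 * M ^ 2)
        linarith

include hp D in
/-- The bound for the truncated expected number of visits. -/
theorem mT_bound (hp2 : p < 1 / 2) (T : ℕ) (x : V) :
    mT S p 0 x T ≤ 2 * p + Real.log ((1 - p) / (1 - 2 * p)) := by
  have hpos : 0 < 1 - 2 * p := by linarith
  have hpos2 : 0 < 1 - p := by linarith
  set m := mT S p 0 x T
  set M : ℝ := (MB D.inn T x : ℝ)
  have key : ∀ k : ℕ, m ≤ 2 * p + Real.log ((1 - p) / (1 - 2 * p)) + (1 / 2) ^ k * M ^ 2 := by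
    intro k
    have h1 := psi_iter D hp hp2.le x k T 1 zero_le_one le_rfl
    have h2 := psi_zero_ge D hp x (T + k)
    have hs0 : (0 : ℝ) ≤ 1 / 2 ^ k := by positivity
    have hs1 : (1 : ℝ) / 2 ^ k ≤ 1 := by
      rw [div_le_one (by positivity)]
      exact one_le_pow₀ (by norm_num)
    have h3 := psi_small D hp T x hs0 hs1
    have hb := psi_bounds D hp T x (r := 1 - 1 / 2 ^ k) (by linarith) (by linarith)
    have h4 : (Psi p T (1 - 1 / 2 ^ k)) ^ (2 ^ k) ≤
        Real.exp (-m + (1 / 2) ^ k * M ^ 2) := by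
      calc _ ≤ (Real.exp (-(1 / 2 ^ k * m) + (1 / 2 ^ k) ^ 2 * M ^ 2)) ^ (2 ^ k) :=
            pow_le_pow_left₀ (hb.2.2.trans hb.1) h3 _
        _ = _ := by
            rw [← Real.exp_nat_mul]
            congr 1
            push_cast
            have h2k : (1 / 2 : ℝ) ^ k = 1 / 2 ^ k := one_div_pow _ _
            rw [h2k]
            field_simp
    have h5 : (1 - 2 * p) / (1 - p) ≤ Real.exp (-m + (1 / 2) ^ k * M ^ 2 + 2 * p) := by
      rw [div_le_iff₀ hpos2]
      rw [sub_self] at h1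
      have h6 : Psi p (T + k) 0 ≤ Real.exp (-m + (1 / 2) ^ k * M ^ 2 + 2 * p) := by
        calc _ ≤ _ := h1
          _ ≤ Real.exp (-m + (1 / 2) ^ k * M ^ 2) * Real.exp (2 * p * 1 ^ 2) :=
              mul_le_mul_of_nonneg_right h4 (Real.exp_pos _).le
          _ = _ := by rw [← Real.exp_add]; congr 1; ring
      have := mul_le_mul_of_nonneg_left h6 hpos2.le
      linarith
    have h7 := Real.log_le_log (div_pos hpos hpos2) h5
    rw [Real.log_exp] at h7
    have h8 : Real.log ((1 - p) / (1 - 2 * p)) = -Real.log ((1 - 2 * p) / (1 - p)) := by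
      rw [← Real.log_inv, inv_div]
    rw [h8]
    linarith
  have hlim : Filter.Tendsto (fun k : ℕ => 2 * p + Real.log ((1 - p) / (1 - 2 * p)) +
      (1 / 2 : ℝ) ^ k * M ^ 2) Filter.atTop
      (nhds (2 * p + Real.log ((1 - p) / (1 - 2 * p)) + 0 * M ^ 2)) := by
    refine Filter.Tendsto.const_add _ (Filter.Tendsto.mul_const _ ?_)
    exact tendsto_pow_atTop_nhds_zero_of_lt_one (by norm_num) (by norm_num)
  have := ge_of_tendsto' hlim key
  simpa using this

end

end Pool.Agent.K1H95.ParkTree
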