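import Pool.Agent.TH996.Link
import Pool.Agent.TH996.Limit

set_option autoImplicit false

/-! Deterministic part: reduction to the in-neighbours, locality, departures as a function of the
number of visits. -/

namespace Pool.Agent.K1H95.ParkTree

open Finset
open Pool.Agent.TH996 Pool.Agent.TH996.Park

variable {V : Type*} [DecidableEq V]

section det

variable (nb nb' : V → Finset V) (ξ : ℕ × V × ℕ → V) (b : ℕ × V × ℕ → Bool) (c0 f0 : V → ℕ)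

lemma arr_sub (h : ∀ x, nb' x ⊆ nb x)
    (hξ : ∀ t x, ∀ y ∈ nb x, y ∉ nb' x → ∀ i, ξ (t, y, i) ≠ x) (c : V → ℕ) (t : ℕ) (x : V) :
    arr nb ξ b c t x = arr nb' ξ b c t x := by
  unfold arr
  symm
  apply sum_subset (h x)
  intro y hy hy'
  rw [card_eq_zero, filter_eq_empty_iff]
  rintro i _ ⟨_, h2⟩
  exact hξ t x y hy hy' i h2

lemma st_sub (h : ∀ x, nb' x ⊆ nb x)
    (hξ : ∀ t x, ∀ y ∈ nb x, y ∉ nb' x → ∀ i, ξ (t, y, i) ≠ x) (t : ℕ) :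
    st nb ξ b c0 f0 t = st nb' ξ b c0 f0 t := by
  induction t with
  | zero => rfl
  | succ t ih =>
    unfold st
    rw [ih]
    simp only [arr_sub nb nb' ξ b h hξ]

lemma st_loc (A : Set V) (hA : ∀ z ∈ A, ∀ y ∈ nb z, y ∈ A) (ξ' : ℕ × V × ℕ → V)
    (c0' f0' : V → ℕ) (h1 : ∀ z ∈ A, c0 z = c0' z ∧ f0 z = f0' z)
    (h2 : ∀ z ∈ A, ∀ t i, ξ (t, z, i) = ξ' (t, z, i)) (t : ℕ) :
    ∀ z ∈ A, (st nb ξ b c0 f0 t).1 z = (st nb ξ' b c0' f0' t).1 z ∧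
      (st nb ξ b c0 f0 t).2 z = (st nb ξ' b c0' f0' t).2 z := by
  induction t with
  | zero => exact h1
  | succ t ih =>
    intro z hz
    have e : arr nb ξ b (st nb ξ b c0 f0 t).1 t z = arr nb ξ' b (st nb ξ' b c0' f0' t).1 t z := by
      unfold arr
      refine sum_congr rfl fun y hy => ?_
      rw [(ih y (hA z hz y hy)).1]
      congr 1
      refine filter_congr fun i _ => ?_
      rw [h2 y (hA z hz y hy) t i]
    unfold st
    simp only [e, (ih z hz).2, and_self]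

lemma ar_loc (A : Set V) (hA : ∀ z ∈ A, ∀ y ∈ nb z, y ∈ A) (ξ' : ℕ × V × ℕ → V)
    (c0' f0' : V → ℕ) (h1 : ∀ z ∈ A, c0 z = c0' z ∧ f0 z = f0' z)
    (h2 : ∀ z ∈ A, ∀ t i, ξ (t, z, i) = ξ' (t, z, i)) (t : ℕ) (x : V)
    (hx : ∀ y ∈ nb x, y ∈ A) :
    ar nb ξ b c0 f0 t x = ar nb ξ' b c0' f0' t x := by
  unfold ar arr
  refine sum_congr rfl fun y hy => ?_
  rw [(st_loc nb ξ b c0 f0 A hA ξ' c0' f0' h1 h2 t y (hx y hy)).1]
  congr 1
  refine filter_congr fun i _ => ?_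
  rw [h2 y (hx y hy) t i]

lemma vis_loc (A : Set V) (hA : ∀ z ∈ A, ∀ y ∈ nb z, y ∈ A) (ξ' : ℕ × V × ℕ → V)
    (c0' f0' : V → ℕ) (h1 : ∀ z ∈ A, c0 z = c0' z ∧ f0 z = f0' z)
    (h2 : ∀ z ∈ A, ∀ t i, ξ (t, z, i) = ξ' (t, z, i)) (T : ℕ) (x : V)
    (hx : ∀ y ∈ nb x, y ∈ A) :
    vis nb ξ b c0 f0 T x = vis nb ξ' b c0' f0' T x := by
  unfold vis
  exact sum_congr rfl fun t _ => ar_loc nb ξ b c0 f0 A hA ξ' c0' f0' h1 h2 t x hx

lemma fr_vis (T : ℕ) (x : V) : fr nb ξ b c0 f0 T x = f0 x - vis nb ξ b c0 f0 T x := by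
  induction T with
  | zero => simp [vis]
  | succ T ih =>
    have e2 : vis nb ξ b c0 f0 (T + 1) x = vis nb ξ b c0 f0 T x + ar nb ξ b c0 f0 T x := by
      simp [vis, sum_range_succ]
    rw [fr_succ, e2, ih]
    omega

lemma dep_succ_vis (T : ℕ) (x : V) : dep nb ξ b c0 f0 (T + 1) x =
    c0 x + (vis nb ξ b c0 f0 T x - f0 x) := by
  induction T with
  | zero => simp [dep, vis]
  | succ T ih =>
    have e1 : dep nb ξ b c0 f0 (T + 2) x =
        dep nb ξ b c0 f0 (T + 1) x + cs nb ξ b c0 f0 (T + 1) x := by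
      simp [dep, sum_range_succ]
    have e2 : vis nb ξ b c0 f0 (T + 1) x = vis nb ξ b c0 f0 T x + ar nb ξ b c0 f0 T x := by
      simp [vis, sum_range_succ]
    rw [e1, ih, e2, cs_succ, fr_vis]
    omega

/-- `cs` at `x` depends on the initial state at `x` and on a closed set containing the
in-neighbours. -/
lemma cs_loc (A : Set V) (hA : ∀ z ∈ A, ∀ y ∈ nb z, y ∈ A) (ξ' : ℕ × V × ℕ → V)
    (c0' f0' : V → ℕ) (h1 : ∀ z ∈ A, c0 z = c0' z ∧ f0 z = f0' z)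
    (h2 : ∀ z ∈ A, ∀ t i, ξ (t, z, i) = ξ' (t, z, i)) (t : ℕ) (x : V)
    (hx : ∀ y ∈ nb x, y ∈ A) (h3 : c0 x = c0' x ∧ f0 x = f0' x) :
    cs nb ξ b c0 f0 t x = cs nb ξ' b c0' f0' t x := by
  cases t with
  | zero => simpa using h3.1
  | succ t =>
    rw [cs_succ, cs_succ, fr_vis, fr_vis, h3.2,
      ar_loc nb ξ b c0 f0 A hA ξ' c0' f0' h1 h2 t x hx,
      vis_loc nb ξ b c0 f0 A hA ξ' c0' f0' h1 h2 t x hx]

end det

end Pool.Agent.K1H95.ParkTree
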