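import Pool.Agent.TH996.Link
import Pool.Agent.TH996.Limit

set_option autoImplicit false

/-! Resampling a set of coordinates of a product measure. -/

namespace Pool.Agent.K1H95.ParkTree

open Finset MeasureTheory Measure
open Pool.Agent.TH996 Pool.Agent.TH996.Park

section mix

variable {ι X : Type*} [MeasurableSpace X] (μ : ι → Measure X)
  [∀ i, IsProbabilityMeasure (μ i)] (S : Set ι) [DecidablePred (· ∈ S)]

lemma measurable_mix :
    Measurable (fun q : (ι → X) × (ι → X) => fun i => if i ∈ S then q.2 i else q.1 i) := by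
  refine measurable_pi_lambda _ fun i => ?_
  by_cases h : i ∈ S
  · simp only [h, if_true]
    exact (measurable_pi_apply i).comp measurable_snd
  · simp only [h, if_false]
    exact (measurable_pi_apply i).comp measurable_fst

/-- the coordinates in `S` can be replaced by those of an independent copy -/
lemma mix_pi : Resamp (infinitePi μ) (infinitePi μ)
    (fun x x' i => if i ∈ S then x' i else x i) := by
  classical
  refine ⟨measurable_mix S, ?_⟩
  refine eq_infinitePi μ fun s t ht => ?_
  rw [map_apply (measurable_mix S) (.pi s.countable_toSet fun _ _ ↦ ht _)]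
  have e : (fun q : (ι → X) × (ι → X) => fun i => if i ∈ S then q.2 i else q.1 i) ⁻¹'
      ((s : Set ι).pi t) = (((s.filter (fun i => i ∉ S) : Finset ι) : Set ι).pi t) ×ˢ
        (((s.filter (fun i => i ∈ S) : Finset ι) : Set ι).pi t) := by
    ext q
    simp only [Set.mem_preimage, Set.mem_pi, Finset.mem_coe, Set.mem_prod, Finset.mem_filter]
    constructor
    · intro h
      refine ⟨fun i hi => ?_, fun i hi => ?_⟩
      · have := h i hi.1
        rwa [if_neg hi.2] at this
      · have := h i hi.1
        rwa [if_pos hi.2] at this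
    · rintro ⟨h1, h2⟩ i hi
      by_cases his : i ∈ S
      · rw [if_pos his]; exact h2 i ⟨hi, his⟩
      · rw [if_neg his]; exact h1 i ⟨hi, his⟩
  rw [e, prod_prod, infinitePi_pi _ (fun i _ => ht i), infinitePi_pi _ (fun i _ => ht i), mul_comm]
  exact Finset.prod_filter_mul_prod_filter_not s (fun i => i ∈ S) (fun i => μ i (t i))

/-- Product over finitely many coordinates. -/
lemma integral_prod_coord [DecidableEq ι] (A : Finset ι) (g : ι → X → ℝ) (hg : ∀ i, BM (g i)) :
    ∫ x, ∏ i ∈ A, g i (x i) ∂(infinitePi μ) = ∏ i ∈ A, ∫ v, g i v ∂(μ i) := by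
  classical
  induction A using Finset.induction_on with
  | empty => simp
  | insert a A ha ih =>
    have hb : ∀ B : Finset ι, BM (fun x : ι → X => ∏ i ∈ B, g i (x i)) := by
      intro B
      induction B using Finset.induction_on with
      | empty => simpa using BM.const (Ω := ι → X) 1
      | insert c B hc ih2 =>
        simp only [Finset.prod_insert hc]
        exact ((hg c).comp (measurable_pi_apply c)).mul ih2
    have h := (Resamp.pi μ a).integral_mul (hb A) ((hg a).comp (measurable_pi_apply a)) (g a)
      (fun x v => ?_) (fun x v => ?_)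
    · simp only [Finset.prod_insert ha]
      rw [← ih, mul_comm, ← h]
      refine integral_congr_ae (Filter.Eventually.of_forall fun x => ?_)
      simp only
      ring
    · refine Finset.prod_congr rfl fun i hi => ?_
      have : i ≠ a := fun e => ha (e ▸ hi)
      rw [Function.update_of_ne this]
    · simp
end mix

variable {V : Type*} [DecidableEq V] [MeasurableSpace V] [MeasurableSingletonClass V] [Countable V]

/-- the probability space without killing -/
abbrev Om0 (V : Type*) := (V → Bool) × (ℕ × V × ℕ → V)

open Classical in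
/-- replace all randomness attached to the vertices in `A` -/
noncomputable def mixV (A : Set V) (ω ω' : Om0 V) : Om0 V :=
  (fun x => if x ∈ A then ω'.1 x else ω.1 x, fun a => if a.2.1 ∈ A then ω'.2 a else ω.2 a)

open Classical in
/-- replace all moves attached to the vertex `y` -/
noncomputable def mixY (y : V) (ω : Om0 V) (ξ' : ℕ × V × ℕ → V) : Om0 V :=
  (ω.1, fun a => if a.2.1 = y then ξ' a else ω.2 a)

/-- replace the initial state of the vertex `y` -/
def mixE (y : V) (ω : Om0 V) (β : Bool) : Om0 V := (Function.update ω.1 y β, ω.2)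

section

variable (S : Tri V) {p : ℝ} (hp : 0 ≤ p ∧ p ≤ 1)

include hp in
lemma resamp_mixV (A : Set V) : Resamp (S.law0 p) (S.law0 p) (mixV A) := by
  classical
  have := bern_prob hp.1 hp.2
  have h1 := (mix_pi (fun _ : V => bern p) A).left
    (infinitePi fun a : ℕ × V × ℕ => stepLaw S.nb S.K a.2.1)
  have h2 := (mix_pi (fun a : ℕ × V × ℕ => stepLaw S.nb S.K a.2.1)
    {a | a.2.1 ∈ A}).right (infinitePi fun _ : V => bern p)
  have h3 := h1.comp h2
  have e : (fun (ω : Om0 V) (x : (V → Bool) × (ℕ × V × ℕ → V)) => mixV A ω x) =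
      fun ω x => ((fun i => if i ∈ A then x.1 i else ω.1 i),
        fun i => if i ∈ ({a | a.2.1 ∈ A} : Set (ℕ × V × ℕ)) then x.2 i else ω.2 i) := by
    funext ω x
    unfold mixV
    simp only [Set.mem_setOf_eq]
  unfold Tri.law0
  rw [show mixV A = fun (ω : Om0 V) (x : (V → Bool) × (ℕ × V × ℕ → V)) => mixV A ω x from rfl, e]
  exact h3

include hp in
lemma resamp_mixY (y : V) : Resamp (S.law0 p)
    (infinitePi fun a : ℕ × V × ℕ => stepLaw S.nb S.K a.2.1) (mixY y) := by
  classical
  have := bern_prob hp.1 hp.2
  have h2 := (mix_pi (fun a : ℕ × V × ℕ => stepLaw S.nb S.K a.2.1)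
    {a | a.2.1 = y}).right (infinitePi fun _ : V => bern p)
  have e : (mixY y : Om0 V → (ℕ × V × ℕ → V) → Om0 V) =
      fun ω x => (ω.1, fun i => if i ∈ ({a | a.2.1 = y} : Set (ℕ × V × ℕ)) then x i else ω.2 i) := by
    funext ω x
    unfold mixY
    simp only [Set.mem_setOf_eq]
  rw [e]
  exact h2

include hp in
lemma resamp_mixE (y : V) : Resamp (S.law0 p) (bern p) (mixE y) := by
  have := bern_prob hp.1 hp.2
  exact (Resamp.pi (fun _ : V => bern p) y).left
    (infinitePi fun a : ℕ × V × ℕ => stepLaw S.nb S.K a.2.1)

end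

end Pool.Agent.K1H95.ParkTree
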