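import Pool.Agent.K1H95.ParkTree.Det
import Pool.Agent.K1H95.ParkTree.Mix

set_option autoImplicit false

/-! The recursion for the generating function of the number of visits, when the kernel is carried
by a directed graph with in-degree two in which the ancestries of the two in-neighbours of a
vertex are disjoint. -/

namespace Pool.Agent.K1H95.ParkTree

open Finset MeasureTheory Measure
open Pool.Agent.TH996 Pool.Agent.TH996.Park

variable {V : Type*} [DecidableEq V]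

/-- In-neighbours and ancestries. -/
structure Dir (S : Tri V) where
  /-- in-neighbours -/
  inn : V → Finset V
  /-- ancestries -/
  anc : V → Set V
  inn_sub : ∀ x, inn x ⊆ S.nb x
  K_off : ∀ x, ∀ y ∈ S.nb x, y ∉ inn x → S.K y x = 0
  K_on : ∀ x, ∀ y ∈ inn x, S.K y x = 1 / 2
  card : ∀ x, (inn x).card = 2
  self : ∀ x, x ∈ anc x
  closed : ∀ x, ∀ z ∈ anc x, ∀ y ∈ inn z, y ∈ anc x
  noself : ∀ x, ∀ y ∈ inn x, x ∉ anc y
  disj : ∀ x, ∀ y ∈ inn x, ∀ z ∈ inn x, y ≠ z → Disjoint (anc y) (anc z)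

/-- number of visits to `x` up to time `T` -/
def W (nb : V → Finset V) (T : ℕ) (x : V) (ω : Om0 V) : ℕ :=
  vis nb ω.2 (fun _ => false) (c0 ω.1) (f0 ω.1) T x

/-- number of departures from `x` before time `T` -/
def Dd (nb : V → Finset V) (T : ℕ) (x : V) (ω : Om0 V) : ℕ :=
  dep nb ω.2 (fun _ => false) (c0 ω.1) (f0 ω.1) T x

/-- number of moves from `y` to `x` before time `T` -/
def NN (nb : V → Finset V) (T : ℕ) (y x : V) (ω : Om0 V) : ℕ :=
  ∑ t ∈ range T, ((range (cs nb ω.2 (fun _ => false) (c0 ω.1) (f0 ω.1) t y)).filter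
    (fun i => (fun _ : ℕ × V × ℕ => false) (t, y, i) = false ∧ ω.2 (t, y, i) = x)).card

lemma W_eq (nb : V → Finset V) (T : ℕ) (x : V) (ω : Om0 V) :
    W nb T x ω = ∑ y ∈ nb x, NN nb T y x ω := by
  unfold W vis NN
  simp only [ar_eq]
  exact sum_comm

variable [MeasurableSpace V] [MeasurableSingletonClass V] 

lemma meas_NN (nb : V → Finset V) (T : ℕ) (y x : V) : Measurable (NN nb T y x) := by
  unfold NN
  refine Finset.measurable_fun_sum _ fun t _ => ?_
  exact (measurable_card (Cn nb t y) ((measurable_CF nb t).1 y) t y x).comp measurable_emb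

lemma meas_W (nb : V → Finset V) (T : ℕ) (x : V) : Measurable (W nb T x) := by
  have : W nb T x = fun ω => ∑ y ∈ nb x, NN nb T y x ω := funext fun ω => W_eq nb T x ω
  rw [this]
  exact Finset.measurable_fun_sum _ fun y _ => meas_NN nb T y x

lemma meas_Dd (nb : V → Finset V) (T : ℕ) (x : V) : Measurable (Dd nb T x) := by
  unfold Dd dep
  refine Finset.measurable_fun_sum _ fun t _ => ?_
  exact ((measurable_CF nb t).1 x).comp measurable_emb

omit [DecidableEq V] [MeasurableSingletonClass V] in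
lemma bm_rpow {r : ℝ} (h0 : 0 ≤ r) (h1 : r ≤ 1) (f : Om0 V → ℕ) (hf : Measurable f) :
    BM (fun ω => r ^ (f ω)) := by
  refine ⟨(measurable_of_countable (fun n : ℕ => r ^ n)).comp hf, 1, fun ω => ?_⟩
  rw [abs_of_nonneg (pow_nonneg h0 _)]
  exact pow_le_one₀ h0 h1

variable [Countable V] 

section

variable {S : Tri V} (D : Dir S) {p : ℝ} (hp : 0 ≤ p ∧ p ≤ 1)

omit [MeasurableSpace V] [MeasurableSingletonClass V] [Countable V] in
lemma sanc_closed (y : V) : ∀ z ∈ ⋃ w ∈ D.inn y, D.anc w, ∀ u ∈ D.inn z,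
    u ∈ ⋃ w ∈ D.inn y, D.anc w := by
  intro z hz u hu
  simp only [Set.mem_iUnion] at hz ⊢
  obtain ⟨w, hw, hzw⟩ := hz
  exact ⟨w, hw, D.closed w z hzw u hu⟩

omit [MeasurableSpace V] [MeasurableSingletonClass V] [Countable V] in
lemma inn_sanc (y : V) : ∀ z ∈ D.inn y, z ∈ ⋃ w ∈ D.inn y, D.anc w := by
  intro z hz
  simp only [Set.mem_iUnion]
  exact ⟨z, hz, D.self z⟩

omit [MeasurableSpace V] [MeasurableSingletonClass V] [Countable V] in
lemma not_sanc (y : V) : ∀ z ∈ ⋃ w ∈ D.inn y, D.anc w, z ≠ y := by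
  rintro z hz rfl
  simp only [Set.mem_iUnion] at hz
  obtain ⟨w, hw, hzw⟩ := hz
  exact D.noself z w hw hzw

include hp in
lemma ae_supp : ∀ᵐ ω ∂(S.law0 p), ∀ (t : ℕ) (x : V), ∀ y ∈ S.nb x, y ∉ D.inn x → ∀ i : ℕ,
    ω.2 (t, y, i) ≠ x := by
  have := bern_prob hp.1 hp.2
  rw [ae_all_iff]; intro t
  rw [ae_all_iff]; intro x
  rw [ae_all_iff]; intro y
  by_cases hy : y ∈ S.nb x
  swap
  · exact Filter.Eventually.of_forall fun ω h => absurd h hy
  by_cases hy' : y ∈ D.inn x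
  · exact Filter.Eventually.of_forall fun ω _ h => absurd hy' h
  have key : ∀ i : ℕ, ∀ᵐ ω ∂(S.law0 p), ω.2 (t, y, i) ≠ x := by
    intro i
    have h1 : ∀ᵐ v ∂(stepLaw S.nb S.K y), v ≠ x := by
      rw [ae_iff]
      have e : {a | ¬ a ≠ x} = {x} := by ext a; simp
      rw [e]
      unfold stepLaw
      rw [Measure.finsetSum_apply]
      refine Finset.sum_eq_zero fun z _ => ?_
      by_cases hz : z = x
      · subst hz
        rw [D.K_off z y hy hy']
        simp
      · simp [Measure.dirac_apply' z (measurableSet_singleton x), hz]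
    have h2 := (measurePreserving_eval_infinitePi
      (fun a : ℕ × V × ℕ => stepLaw S.nb S.K a.2.1) (t, y, i)).quasiMeasurePreserving.ae h1
    exact (quasiMeasurePreserving_snd (μ := infinitePi fun _ : V => bern p)
      (ν := infinitePi fun a : ℕ × V × ℕ => stepLaw S.nb S.K a.2.1)).ae h2
  filter_upwards [ae_all_iff.2 key] with ω hω _ _
  exact hω

include hp in
lemma ae_st : ∀ᵐ ω ∂(S.law0 p), ∀ t,
    st S.nb ω.2 (fun _ => false) (c0 ω.1) (f0 ω.1) t =
      st D.inn ω.2 (fun _ => false) (c0 ω.1) (f0 ω.1) t := by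
  filter_upwards [ae_supp D hp] with ω hω t
  exact st_sub S.nb D.inn ω.2 (fun _ => false) (c0 ω.1) (f0 ω.1) D.inn_sub hω t

include hp in
lemma factor {r : ℝ} (h0 : 0 ≤ r) (h1 : r ≤ 1) (T : ℕ) (x : V) :
    ∫ ω, r ^ (W D.inn T x ω) ∂(S.law0 p) =
      ∏ y ∈ D.inn x, ∫ ω, r ^ (NN D.inn T y x ω) ∂(S.law0 p) := by
  have := law0_prob S hp
  obtain ⟨y1, y2, hne, hxy⟩ := Finset.card_eq_two.1 (D.card x)
  have hy1 : y1 ∈ D.inn x := by rw [hxy]; simp
  have hy2 : y2 ∈ D.inn x := by rw [hxy]; simp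
  have hd := D.disj x y1 hy1 y2 hy2 hne
  have hW : ∀ ω, r ^ (W D.inn T x ω) = r ^ (NN D.inn T y1 x ω) * r ^ (NN D.inn T y2 x ω) := by
    intro ω
    rw [W_eq, hxy, sum_pair hne, pow_add]
  simp_rw [hW]
  rw [hxy, prod_pair hne]
  refine (resamp_mixV S hp (D.anc y2)).integral_mul
    (bm_rpow h0 h1 _ (meas_NN D.inn T y1 x)) (bm_rpow h0 h1 _ (meas_NN D.inn T y2 x))
    (fun ω => r ^ (NN D.inn T y2 x ω)) (fun ω ω' => ?_) (fun ω ω' => ?_)
  · congr 1
    have hout : ∀ z ∈ D.anc y1, z ∉ D.anc y2 := fun z hz hz2 => Set.disjoint_left.1 hd hz hz2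
    unfold NN
    refine sum_congr rfl fun t _ => ?_
    have hc : cs D.inn (mixV (D.anc y2) ω ω').2 (fun _ => false)
        (c0 (mixV (D.anc y2) ω ω').1) (f0 (mixV (D.anc y2) ω ω').1) t y1 =
        cs D.inn ω.2 (fun _ => false) (c0 ω.1) (f0 ω.1) t y1 := by
      refine (st_loc D.inn (mixV (D.anc y2) ω ω').2 (fun _ => false)
        (c0 (mixV (D.anc y2) ω ω').1) (f0 (mixV (D.anc y2) ω ω').1) (D.anc y1) (D.closed y1)
        ω.2 (c0 ω.1) (f0 ω.1) (fun z hz => ?_) (fun z hz s i => ?_) t y1 (D.self y1)).1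
      · simp [mixV, c0, f0, hout z hz]
      · simp [mixV, hout z hz]
    rw [hc]
    congr 1
    refine filter_congr fun i _ => ?_
    simp [mixV, hout y1 (D.self y1)]
  · congr 1
    unfold NN
    refine sum_congr rfl fun t _ => ?_
    have hc : cs D.inn (mixV (D.anc y2) ω ω').2 (fun _ => false)
        (c0 (mixV (D.anc y2) ω ω').1) (f0 (mixV (D.anc y2) ω ω').1) t y2 =
        cs D.inn ω'.2 (fun _ => false) (c0 ω'.1) (f0 ω'.1) t y2 := by
      refine (st_loc D.inn (mixV (D.anc y2) ω ω').2 (fun _ => false)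
        (c0 (mixV (D.anc y2) ω ω').1) (f0 (mixV (D.anc y2) ω ω').1) (D.anc y2) (D.closed y2)
        ω'.2 (c0 ω'.1) (f0 ω'.1) (fun z hz => ?_) (fun z hz s i => ?_) t y2 (D.self y2)).1
      · simp [mixV, c0, f0, hz]
      · simp [mixV, hz]
    rw [hc]
    congr 1
    refine filter_congr fun i _ => ?_
    simp [mixV, D.self y2]

include hp in
lemma thin {r : ℝ} (h0 : 0 ≤ r) (h1 : r ≤ 1) (T : ℕ) (x y : V) (hy : y ∈ D.inn x) :
    ∫ ω, r ^ (NN D.inn T y x ω) ∂(S.law0 p) =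
      ∫ ω, ((1 + r) / 2) ^ (Dd D.inn T y ω) ∂(S.law0 p) := by
  classical
  have := law0_prob S hp
  rw [(resamp_mixY S hp y).integral (bm_rpow h0 h1 _ (meas_NN D.inn T y x))]
  refine integral_congr_ae (Filter.Eventually.of_forall fun ω => ?_)
  simp only
  set c : ℕ → ℕ := fun t => cs D.inn ω.2 (fun _ => false) (c0 ω.1) (f0 ω.1) t y with hc
  have hcs : ∀ (ξ' : ℕ × V × ℕ → V) (t : ℕ),
      cs D.inn (mixY y ω ξ').2 (fun _ => false) (c0 (mixY y ω ξ').1) (f0 (mixY y ω ξ').1) t y =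
        c t := by
    intro ξ' t
    refine cs_loc D.inn _ _ _ _ (⋃ w ∈ D.inn y, D.anc w) (sanc_closed D y) ω.2 (c0 ω.1) (f0 ω.1)
      (fun z hz => ?_) (fun z hz s i => ?_) t y (inn_sanc D y) ?_
    · simp [mixY]
    · simp [mixY, not_sanc D y z hz]
    · simp [mixY]
  set e : (Σ _ : ℕ, ℕ) ↪ ℕ × V × ℕ := ⟨fun q => (q.1, y, q.2), by
    rintro ⟨a, b⟩ ⟨a', b'⟩ h
    simp only [Prod.mk.injEq, true_and] at h
    obtain ⟨rfl, rfl⟩ := h
    rfl⟩ with he
  set A : Finset (ℕ × V × ℕ) := ((range T).sigma (fun t => range (c t))).map e with hA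
  have hNN : ∀ ξ' : ℕ × V × ℕ → V, r ^ (NN D.inn T y x (mixY y ω ξ')) =
      ∏ a ∈ A, (if ξ' a = x then r else 1) := by
    intro ξ'
    rw [hA, prod_map, prod_sigma]
    unfold NN
    rw [← prod_pow_eq_pow_sum]
    refine prod_congr rfl fun t _ => ?_
    rw [hcs]
    rw [Finset.prod_ite, prod_const, prod_const_one, mul_one]
    congr 2
    refine filter_congr fun i _ => ?_
    have hei : e ⟨t, i⟩ = (t, y, i) := rfl
    simp [mixY, hei]
  simp_rw [hNN]
  have hg : ∀ _ : ℕ × V × ℕ, BM (fun v : V => if v = x then r else (1 : ℝ)) := by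
    intro _
    refine ⟨measurable_of_countable _, 1, fun v => ?_⟩
    split_ifs
    · rw [abs_of_nonneg h0]; exact h1
    · simp
  rw [integral_prod_coord (fun a : ℕ × V × ℕ => stepLaw S.nb S.K a.2.1) A
    (fun _ v => if v = x then r else (1 : ℝ)) hg]
  have hK : ∀ a ∈ A, ∫ v, (if v = x then r else (1 : ℝ)) ∂(stepLaw S.nb S.K a.2.1) =
      (1 + r) / 2 := by
    intro a ha
    have hay : a.2.1 = y := by
      rw [hA, mem_map] at ha
      obtain ⟨q, _, rfl⟩ := ha
      rfl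
    rw [hay, S.integral_stepLaw]
    have hxn : x ∈ S.nb y := S.symm x y (D.inn_sub x hy)
    have h2 : ∀ z ∈ S.nb y, S.K y z * (if z = x then r else (1 : ℝ)) =
        S.K y z + (if z = x then S.K y x * (r - 1) else 0) := by
      intro z _
      split_ifs with h
      · subst h; ring
      · ring
    rw [sum_congr rfl h2, sum_add_distrib, S.sum_one, sum_ite_eq' , if_pos hxn, D.K_on x y hy]
    ring
  rw [prod_congr rfl hK, prod_const]
  congr 1
  rw [hA, card_map, card_sigma]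
  unfold Dd dep
  refine sum_congr rfl fun t _ => ?_
  rw [card_range]

include hp in
lemma dep_gf {q : ℝ} (h0 : 0 < q) (h1 : q ≤ 1) (T : ℕ) (y : V) :
    ∫ ω, q ^ (Dd D.inn (T + 1) y ω) ∂(S.law0 p) =
      p * q * (∫ ω, q ^ (W D.inn T y ω) ∂(S.law0 p)) +
      (1 - p) * (((∫ ω, q ^ (W D.inn T y ω) ∂(S.law0 p)) -
        (∫ ω, (0 : ℝ) ^ (W D.inn T y ω) ∂(S.law0 p))) / q +
        (∫ ω, (0 : ℝ) ^ (W D.inn T y ω) ∂(S.law0 p))) := by
  have := law0_prob S hp
  have := bern_prob hp.1 hp.2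
  rw [(resamp_mixE S hp y).integral (bm_rpow h0.le h1 _ (meas_Dd D.inn (T + 1) y))]
  have hW : ∀ (ω : Om0 V) (β : Bool), vis D.inn (mixE y ω β).2 (fun _ => false)
      (c0 (mixE y ω β).1) (f0 (mixE y ω β).1) T y = W D.inn T y ω := by
    intro ω β
    refine vis_loc D.inn _ _ _ _ (⋃ w ∈ D.inn y, D.anc w) (sanc_closed D y) ω.2 (c0 ω.1) (f0 ω.1)
      (fun z hz => ?_) (fun z hz s i => ?_) T y (inn_sanc D y)
    · simp [mixE, c0, f0, Function.update_of_ne (not_sanc D y z hz)]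
    · simp [mixE]
  have hD : ∀ (ω : Om0 V) (β : Bool), Dd D.inn (T + 1) y (mixE y ω β) =
      (if β then 1 else 0) + (W D.inn T y ω - (if β then 0 else 1)) := by
    intro ω β
    unfold Dd
    rw [dep_succ_vis, hW]
    simp [mixE, c0, f0]
  have hin : ∀ ω : Om0 V, ∫ β, q ^ (Dd D.inn (T + 1) y (mixE y ω β)) ∂(bern p) =
      p * q * q ^ (W D.inn T y ω) + (1 - p) * ((q ^ (W D.inn T y ω) -
        (0 : ℝ) ^ (W D.inn T y ω)) / q + (0 : ℝ) ^ (W D.inn T y ω)) := by
    intro ω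
    rw [integral_bern hp.1 hp.2, hD, hD]
    simp only [if_true, Bool.false_eq_true, if_false, Nat.sub_zero, zero_add]
    rw [pow_add, pow_one]
    rcases Nat.eq_zero_or_pos (W D.inn T y ω) with h | h
    · rw [h]; simp
    · obtain ⟨k, hk⟩ := Nat.exists_eq_succ_of_ne_zero h.ne'
      rw [hk, Nat.succ_sub_one, pow_succ, zero_pow (Nat.succ_ne_zero k)]
      field_simp
      ring
  simp_rw [hin]
  have b1 := bm_rpow h0.le h1 _ (meas_W D.inn T y)
  have b2 := bm_rpow (le_refl (0 : ℝ)) zero_le_one _ (meas_W D.inn T y)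
  have i1 := b1.integrable (S.law0 p)
  have i2 := b2.integrable (S.law0 p)
  have e : ∀ ω : Om0 V, p * q * q ^ (W D.inn T y ω) + (1 - p) * ((q ^ (W D.inn T y ω) -
        (0 : ℝ) ^ (W D.inn T y ω)) / q + (0 : ℝ) ^ (W D.inn T y ω)) =
      (p * q + (1 - p) / q) * q ^ (W D.inn T y ω) +
        ((1 - p) * (1 - 1 / q)) * (0 : ℝ) ^ (W D.inn T y ω) := by
    intro ω
    field_simp
    ring
  simp_rw [e]
  rw [integral_add (i1.const_mul _) (i2.const_mul _), integral_const_mul, integral_const_mul]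
  field_simp
  ring

/-- the generating function, defined by the recursion -/
noncomputable def Psi (p : ℝ) : ℕ → ℝ → ℝ
  | 0, _ => 1
  | T + 1, r => (p * ((1 + r) / 2) * Psi p T ((1 + r) / 2) +
      (1 - p) * ((Psi p T ((1 + r) / 2) - Psi p T 0) / ((1 + r) / 2) + Psi p T 0)) ^ 2

include hp in
/-- the recursion -/
theorem psi_eq (T : ℕ) : ∀ (x : V) (r : ℝ), 0 ≤ r → r ≤ 1 →
    ∫ ω, r ^ (W D.inn T x ω) ∂(S.law0 p) = Psi p T r := by
  have := law0_prob S hp
  induction T with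
  | zero =>
    intro x r _ _
    simp [W, vis, Psi]
  | succ T ih =>
    intro x r h0 h1
    rw [factor D hp h0 h1]
    have hq0 : 0 < (1 + r) / 2 := by linarith
    have hq1 : (1 + r) / 2 ≤ 1 := by linarith
    have : ∀ y ∈ D.inn x, ∫ ω, r ^ (NN D.inn (T + 1) y x ω) ∂(S.law0 p) =
        (p * ((1 + r) / 2) * Psi p T ((1 + r) / 2) +
          (1 - p) * ((Psi p T ((1 + r) / 2) - Psi p T 0) / ((1 + r) / 2) + Psi p T 0)) := by
      intro y hy
      rw [thin D hp h0 h1 (T + 1) x y hy, dep_gf D hp hq0 hq1 T y,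
        ih y _ hq0.le hq1, ih y 0 le_rfl zero_le_one]
    rw [prod_congr rfl this, prod_const, D.card]
    rfl

end

end Pool.Agent.K1H95.ParkTree
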